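import Mathlib

set_option autoImplicit false

namespace Pool.Agent.Results.MP_40d282_co.No

open MeasureTheory Metric Filter Set
open scoped ENNReal

/-- upper density: total area of the disks with centre in the closed disk of radius R, over π R² -/
noncomputable def dens {ι : Type} (x : ι → ℂ) (r : ι → ℝ) : ℝ≥0∞ :=
  limsup (fun R : ℝ => (∑' i : {i // ‖x i‖ ≤ R}, volume (ball (x i) (r i))) /
    ENNReal.ofReal (Real.pi * R ^ 2)) atTop

/-- density relative to the union of the members contained in the closed disk of radius R -/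
noncomputable def densU {ι : Type} (x : ι → ℂ) (r : ι → ℝ) : ℝ≥0∞ :=
  limsup (fun R : ℝ =>
    (∑' i : {i // ball (x i) (r i) ⊆ closedBall 0 R}, volume (ball (x i) (r i))) /
    volume (⋃ i : {i // ball (x i) (r i) ⊆ closedBall 0 R}, ball (x i) (r i))) atTop

/-- the hexagonal lattice spanned by the unit vectors 1 and (1/2, √3/2) -/
noncomputable def hex (p : ℤ × ℤ) : ℂ := (p.1 : ℂ) * 1 + (p.2 : ℂ) * ⟨1 / 2, √3 / 2⟩

def X : Fin 9 → ℤ := ![0, 0, 0, 16821, -16821, 0, 0, 16821, -16821]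
def T : Fin 9 → ℤ := ![0, 700000, 711214, 694393, 694393, -700000, -711214, -694393, -694393]
def Rr : Fin 9 → ℤ := ![1200000, 16569, 3780, 3780, 3780, 16569, 3780, 3780, 3780]

lemma bd : ∀ k : Fin 9, -16821 ≤ X k ∧ X k ≤ 16821 ∧ -711214 ≤ T k ∧ T k ≤ 711214 ∧
    3780 ≤ Rr k ∧ Rr k ≤ 1200000 := by decide

lemma fin : ∀ a b : Fin 5, ∀ k l : Fin 9, (a = 2 ∧ b = 2 ∧ k = l) ∨
    (4 * Rr k + 3 * Rr l) ^ 2 ≤ 16 * ((X k - X l + 2100000 * ((a.val : ℤ) - 2) +
      1050000 * ((b.val : ℤ) - 2)) ^ 2 + 3 * (T k - T l + 1050000 * ((b.val : ℤ) - 2)) ^ 2) := by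
  decide +kernel

lemma key (a b : ℤ) (k l : Fin 9) (h : ¬ (a = 0 ∧ b = 0 ∧ k = l)) :
    (4 * Rr k + 3 * Rr l) ^ 2 ≤ 16 * ((X k - X l + 2100000 * a + 1050000 * b) ^ 2 +
      3 * (T k - T l + 1050000 * b) ^ 2) := by
  obtain ⟨k1, k2, k3, k4, k5, k6⟩ := bd k
  obtain ⟨l1, l2, l3, l4, l5, l6⟩ := bd l
  have h0 : (4 * Rr k + 3 * Rr l) ^ 2 ≤ 8400000 ^ 2 := by
    apply pow_le_pow_left₀ <;> omega
  by_cases hb : b ≤ -3 ∨ 3 ≤ b
  · have : 1700000 ^ 2 ≤ (T k - T l + 1050000 * b) ^ 2 := by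
      rw [sq_le_sq]; rcases hb with hb | hb
      · rw [abs_of_nonpos (a := T k - T l + 1050000 * b) (by omega)]; norm_num; omega
      · rw [abs_of_nonneg (a := T k - T l + 1050000 * b) (by omega)]; norm_num; omega
    nlinarith [sq_nonneg (X k - X l + 2100000 * a + 1050000 * b)]
  by_cases ha : a ≤ -3 ∨ 3 ≤ a
  · have : 2100000 ^ 2 ≤ (X k - X l + 2100000 * a + 1050000 * b) ^ 2 := by
      rw [sq_le_sq]; rcases ha with ha | ha
      · rw [abs_of_nonpos (a := X k - X l + 2100000 * a + 1050000 * b) (by omega)]; norm_num; omega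
      · rw [abs_of_nonneg (a := X k - X l + 2100000 * a + 1050000 * b) (by omega)]; norm_num; omega
    nlinarith [sq_nonneg (T k - T l + 1050000 * b)]
  rcases fin ⟨(a + 2).toNat, by omega⟩ ⟨(b + 2).toNat, by omega⟩ k l with ⟨g1, g2, g3⟩ | g
  · exfalso; apply h
    have e1 := congrArg Fin.val g1
    have e2 := congrArg Fin.val g2
    simp only at e1 e2
    refine ⟨?_, ?_, g3⟩
    · have : ((2 : Fin 5) : ℕ) = 2 := rfl
      omega
    · have : ((2 : Fin 5) : ℕ) = 2 := rfl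
      omega
  · have e1 : (((a + 2).toNat : ℕ) : ℤ) - 2 = a := by omega
    have e2 : (((b + 2).toNat : ℕ) : ℤ) - 2 = b := by omega
    simp only [e1, e2] at g
    exact g

noncomputable def cen (p : (ℤ × ℤ) × Fin 9) : ℂ :=
  hex p.1 + ⟨X p.2 / 2100000, √3 * (T p.2 / 2100000)⟩
noncomputable def rad (p : (ℤ × ℤ) × Fin 9) : ℝ := Rr p.2 / 2100000

lemma hre (p : ℤ × ℤ) : (hex p).re = p.1 + p.2 / 2 := by simp [hex]; ring
lemma him (p : ℤ × ℤ) : (hex p).im = √3 * (p.2 / 2) := by simp [hex]; ring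
lemma s3 : √3 ^ 2 = 3 := Real.sq_sqrt (by norm_num)

lemma sep (i j : (ℤ × ℤ) × Fin 9) (h : i ≠ j) : rad i + 3 / 4 * rad j ≤ ‖cen i - cen j‖ := by
  obtain ⟨⟨a, b⟩, k⟩ := i
  obtain ⟨⟨c, d⟩, l⟩ := j
  have g := key (a - c) (b - d) k l (by
    rintro ⟨g1, g2, g3⟩; apply h
    rw [show a = c by omega, show b = d by omega, g3])
  have g' : (4 * (Rr k : ℝ) + 3 * Rr l) ^ 2 ≤ 16 * ((X k - X l + 2100000 * ((a : ℝ) - c) +
      1050000 * ((b : ℝ) - d)) ^ 2 + 3 * (T k - T l + 1050000 * ((b : ℝ) - d)) ^ 2) := by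
    exact_mod_cast g
  apply le_of_sq_le_sq _ (norm_nonneg _)
  rw [Complex.sq_norm, Complex.normSq_apply]
  simp only [cen, rad, Complex.sub_re, Complex.sub_im, Complex.add_re, Complex.add_im, hre, him]
  have e : (√3 * ((b : ℝ) / 2) + √3 * (T k / 2100000) - (√3 * ((d : ℝ) / 2) + √3 * (T l / 2100000))) *
      (√3 * ((b : ℝ) / 2) + √3 * (T k / 2100000) - (√3 * ((d : ℝ) / 2) + √3 * (T l / 2100000))) =
      3 * ((T k - T l + 1050000 * ((b : ℝ) - d)) / 2100000) ^ 2 := by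
    rw [← s3]; ring_nf; simp only [s3]
  rw [e]
  nlinarith

def trap (a b p q : ℝ) : Set ℂ := {z | a < z.re ∧ z.re < b ∧ |z.im| < p + q * z.re}

lemma mtrap (a b p q : ℝ) : MeasurableSet (trap a b p q) := by
  apply IsOpen.measurableSet
  exact (isOpen_lt continuous_const Complex.continuous_re).inter
    ((isOpen_lt Complex.continuous_re continuous_const).inter
      (isOpen_lt (f := fun z : ℂ => |z.im|) (g := fun z : ℂ => p + q * z.re) (by fun_prop)
        (by fun_prop)))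

lemma vtrap (a b p q : ℝ) (hab : a ≤ b) (h : ∀ x ∈ Ioo a b, 0 ≤ p + q * x) :
    volume (trap a b p q) = ENNReal.ofReal ((b - a) * (2 * p + q * (a + b))) := by
  have e : trap a b p q = Complex.measurableEquivRealProd ⁻¹'
      regionBetween (fun x => -(p + q * x)) (fun x => p + q * x) (Ioo a b) := by
    ext z; simp [trap, regionBetween, abs_lt, and_assoc]
  rw [e, Complex.volume_preserving_equiv_real_prod.measure_preimage_equiv,
    show (volume : Measure (ℝ × ℝ)) = volume.prod volume from rfl,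
    volume_regionBetween_eq_integral _ _ measurableSet_Ioo (fun x hx => by
      have := h x hx; linarith)]
  · congr 1
    rw [← integral_Ioc_eq_integral_Ioo, ← intervalIntegral.integral_of_le hab]
    have : ((fun x => p + q * x) - fun x => -(p + q * x)) = fun x : ℝ => 2 * p + 2 * q * x := by
      ext x; simp; ring
    rw [this, intervalIntegral.integral_add (by simp) (by
      apply Continuous.intervalIntegrable; fun_prop)]
    rw [intervalIntegral.integral_const_mul (2 * q), integral_id]; simp; ring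
  · exact (Continuous.integrableOn_Icc (by fun_prop)).mono_set Ioo_subset_Icc_self
  · exact (Continuous.integrableOn_Icc (by fun_prop)).mono_set Ioo_subset_Icc_self

lemma un (A B : Set ℂ) (c : ℝ) (hA : ∀ z ∈ A, z.re < c) (hB : ∀ z ∈ B, c < z.re)
    (m : MeasurableSet B) : volume (A ∪ B) = volume A + volume B :=
  measure_union (Set.disjoint_left.2 fun z h1 h2 => lt_asymm (hA z h1) (hB z h2)) m

/-- a 12-gon inside the disk and the Voronoi hexagon -/
noncomputable def Q : Set ℂ :=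
  trap (-(1 / 2)) (-0.48955) (√3 * 0.6597) √3 ∪ trap (-0.48955) (-0.01045) (√3 / 3) (√3 / 3) ∪
    trap (-0.01045) 0.01045 (√3 * 0.32985) 0 ∪ trap 0.01045 0.48955 (√3 / 3) (-(√3 / 3)) ∪
    trap 0.48955 (1 / 2) (√3 * 0.6597) (-√3)

lemma mQ : MeasurableSet Q :=
  ((((mtrap ..).union (mtrap ..)).union (mtrap ..)).union (mtrap ..)).union (mtrap ..)

lemma vQ : volume Q = ENNReal.ofReal (√3 * 0.499781595) := by
  have p3 : 0 < √3 := by positivity
  unfold Q
  rw [un _ _ 0.48955 _ (fun z h => h.1) (mtrap ..), un _ _ 0.01045 _ (fun z h => h.1) (mtrap ..),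
    un _ _ (-0.01045) _ (fun z h => h.1) (mtrap ..), un _ _ (-0.48955) (fun z h => h.2.1)
    (fun z h => h.1) (mtrap ..), vtrap, vtrap, vtrap, vtrap, vtrap, ← ENNReal.ofReal_add,
    ← ENNReal.ofReal_add, ← ENNReal.ofReal_add, ← ENNReal.ofReal_add]
  · congr 1; ring_nf
  any_goals nlinarith
  iterate 5 (rintro x ⟨h1, h2⟩; nlinarith)
  · rintro z (h | h) <;> linarith [h.2.1]
  · rintro z ((h | h) | h) <;> linarith [h.2.1]
  · rintro z (((h | h) | h) | h) <;> linarith [h.2.1]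

lemma ex (y g : ℝ) (h : |y| < √3 * g) : ∃ t, 0 ≤ t ∧ t < g ∧ y * y = 3 * t ^ 2 ∧ √3 * |y| = 3 * t := by
  have p3 : 0 < √3 := by positivity
  refine ⟨|y| / √3, by positivity, by rw [div_lt_iff₀ p3]; linarith, ?_, ?_⟩
  · rw [div_pow, s3, sq_abs]; ring
  · field_simp; rw [s3]; ring

lemma inQ (z : ℂ) (h : z ∈ Q) : |z.re| < 1 / 2 ∧ √3 * |z.im| + |z.re| < 1 ∧ ‖z‖ < 4 / 7 := by
  have k : ∀ g, |z.im| < √3 * g → |z.re| < 1 / 2 → 3 * g + |z.re| ≤ 1 →
      z.re * z.re + 3 * g ^ 2 ≤ 16 / 49 → |z.re| < 1 / 2 ∧ √3 * |z.im| + |z.re| < 1 ∧ ‖z‖ < 4 / 7 := by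
    intro g h1 h2 h3 h4
    obtain ⟨t, t1, t2, t3, t4⟩ := ex _ _ h1
    refine ⟨h2, by linarith, lt_of_pow_lt_pow_left₀ 2 (by norm_num) ?_⟩
    rw [Complex.sq_norm, Complex.normSq_apply, t3]; nlinarith
  rcases h with (((⟨h1, h2, h3⟩ | ⟨h1, h2, h3⟩) | ⟨h1, h2, h3⟩) | ⟨h1, h2, h3⟩) | ⟨h1, h2, h3⟩
  · have := abs_of_neg (show z.re < 0 by linarith)
    exact k (0.6597 + z.re) (by linarith) (by linarith) (by linarith) (by nlinarith)
  · have := abs_of_neg (show z.re < 0 by linarith)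
    exact k ((1 + z.re) / 3) (by linarith) (by linarith) (by linarith) (by nlinarith)
  · have : |z.re| < 0.01045 := abs_lt.2 ⟨by linarith, h2⟩
    exact k 0.32985 (by linarith) (by linarith) (by linarith) (by nlinarith)
  · have := abs_of_pos (show 0 < z.re by linarith)
    exact k ((1 - z.re) / 3) (by linarith) (by linarith) (by linarith) (by nlinarith)
  · have := abs_of_pos (show 0 < z.re by linarith)
    exact k (0.6597 - z.re) (by linarith) (by linarith) (by linarith) (by nlinarith)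

lemma disj (p q : ℤ × ℤ) (z : ℂ) (hp : z - hex p ∈ Q) (hq : z - hex q ∈ Q) : p = q := by
  obtain ⟨a1, a2, -⟩ := inQ _ hp
  obtain ⟨b1, b2, -⟩ := inQ _ hq
  have p3 : 0 < √3 := by positivity
  have e1 : |((2 * (p.1 - q.1) + (p.2 - q.2) : ℤ) : ℝ)| ≤
      2 * (|(z - hex p).re| + |(z - hex q).re|) := by
    have := abs_sub (z - hex q).re (z - hex p).re
    have e : ((2 * (p.1 - q.1) + (p.2 - q.2) : ℤ) : ℝ) = 2 * ((z - hex q).re - (z - hex p).re) := by
      simp [hre]; ring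
    rw [e, abs_mul]; norm_num at this ⊢; linarith
  have e2 : 3 * |((p.2 - q.2 : ℤ) : ℝ)| ≤ 2 * (√3 * |(z - hex p).im| + √3 * |(z - hex q).im|) := by
    have := abs_sub (z - hex q).im (z - hex p).im
    have e : (z - hex q).im - (z - hex p).im = √3 / 2 * ((p.2 - q.2 : ℤ) : ℝ) := by
      simp [him]; ring
    rw [e, abs_mul, abs_of_pos (show 0 < √3 / 2 by positivity)] at this
    have := mul_le_mul_of_nonneg_left this p3.le
    nlinarith [s3]
  have f1 : |2 * (p.1 - q.1) + (p.2 - q.2)| < 2 := by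
    have : ((|2 * (p.1 - q.1) + (p.2 - q.2)| : ℤ) : ℝ) < 2 := by rw [Int.cast_abs]; linarith
    exact_mod_cast this
  have f2 : 3 * |p.2 - q.2| + |2 * (p.1 - q.1) + (p.2 - q.2)| < 4 := by
    have : 3 * ((|p.2 - q.2| : ℤ) : ℝ) + ((|2 * (p.1 - q.1) + (p.2 - q.2)| : ℤ) : ℝ) < 4 := by
      rw [Int.cast_abs, Int.cast_abs]; linarith
    exact_mod_cast this
  apply Prod.ext <;> rcases abs_cases (p.2 - q.2) with g | g <;>
    rcases abs_cases (2 * (p.1 - q.1) + (p.2 - q.2)) with g' | g' <;> omega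

lemma vball (x : ℂ) (r : ℝ) (h : 0 ≤ r) : volume (ball x r) = ENNReal.ofReal (Real.pi * r ^ 2) := by
  rw [Complex.volume_ball, mul_comm Real.pi, ENNReal.ofReal_mul (by positivity),
    ENNReal.ofReal_pow h, ← NNReal.coe_real_pi, ENNReal.ofReal_coe_nnreal]

lemma up : densU hex (fun _ => 4 / 7) ≤
    ENNReal.ofReal (Real.pi * (4 / 7) ^ 2 / (√3 * 0.499781595)) := by
  refine limsup_le_of_le (by isBoundedDefault) (Eventually.of_forall fun R => ?_)
  apply ENNReal.div_le_of_le_mul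
  have e : volume (⋃ i : {i // ball (hex i) (4 / 7) ⊆ closedBall 0 R}, (fun z => z - hex i) ⁻¹' Q) =
      ∑' i : {i // ball (hex i) (4 / 7) ⊆ closedBall 0 R}, ENNReal.ofReal (√3 * 0.499781595) := by
    rw [measure_iUnion]
    · simp only [sub_eq_add_neg, measure_preimage_add_right, vQ]
    · intro i j h
      exact Set.disjoint_left.2 fun z h1 h2 => h (Subtype.ext (disj _ _ z h1 h2))
    · exact fun i => mQ.preimage (by fun_prop)
  refine le_trans (le_of_eq ?_) (mul_le_mul_right (measure_mono (iUnion_mono (s := fun i :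
    {i // ball (hex i) (4 / 7) ⊆ closedBall 0 R} => (fun z => z - hex i) ⁻¹' Q) fun i z hz => ?_)) _)
  · rw [e, ← ENNReal.tsum_mul_left]
    congr 1; ext i
    rw [vball _ _ (by norm_num), ← ENNReal.ofReal_mul (by positivity)]
    congr 1; field_simp
  · rw [mem_ball, dist_eq_norm]; exact (inQ _ hz).2.2

lemma cover (z : ℂ) : ∃ p : ℤ × ℤ, z - hex p ∈ trap (-0.0000001) 1 (√3 * 0.2500001) 0 := by
  have p3 : 0 < √3 := by positivity
  refine ⟨(⌊z.re - (round (2 * z.im / √3) : ℝ) / 2⌋, round (2 * z.im / √3)), ?_, ?_, ?_⟩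
  · have := Int.floor_le (z.re - (round (2 * z.im / √3) : ℝ) / 2)
    simp only [Complex.sub_re, hre]; linarith
  · have := Int.lt_floor_add_one (z.re - (round (2 * z.im / √3) : ℝ) / 2)
    simp only [Complex.sub_re, hre]; linarith
  · have := abs_sub_round (2 * z.im / √3)
    have e : (z - hex (⌊z.re - (round (2 * z.im / √3) : ℝ) / 2⌋, round (2 * z.im / √3))).im =
        √3 / 2 * (2 * z.im / √3 - round (2 * z.im / √3)) := by
      simp only [Complex.sub_im, him]; field_simp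
    rw [e, abs_mul, abs_of_pos (show 0 < √3 / 2 by positivity)]
    nlinarith

lemma low (R : ℝ) (hR : 3 ≤ R) :
    ENNReal.ofReal (Real.pi * 0.326674556 / (√3 * 0.50000026) * (Real.pi * (R - 3) ^ 2)) ≤
      ∑' i : {i // ‖cen i‖ ≤ R}, volume (ball (cen i) (rad i)) := by
  have p3 : 0 < √3 := by positivity
  have q3 : √3 < 1.7321 := by rw [Real.sqrt_lt' (by norm_num)]; norm_num
  have c1 : ball (0 : ℂ) (R - 3) ⊆ ⋃ p : {p // ‖hex p‖ ≤ R - 1},
      (fun z => z - hex p) ⁻¹' trap (-0.0000001) 1 (√3 * 0.2500001) 0 := by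
    intro z hz
    obtain ⟨p, hp⟩ := cover z
    refine mem_iUnion.2 ⟨⟨p, ?_⟩, hp⟩
    obtain ⟨h1, h2, h3⟩ := hp
    have a1 := Complex.norm_le_abs_re_add_abs_im (z - hex p)
    have a2 : |(z - hex p).re| < 1 := abs_lt.2 ⟨by linarith, h2⟩
    have a3 := norm_sub_le z (z - hex p)
    rw [mem_ball_zero_iff] at hz
    rw [sub_sub_cancel] at a3
    linarith
  have c2 := (measure_mono (μ := volume) c1).trans (measure_iUnion_le _)
  simp only [sub_eq_add_neg _ (hex _), measure_preimage_add_right] at c2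
  rw [vtrap _ _ _ _ (by norm_num) (fun x _ => by nlinarith), vball _ _ (by linarith)] at c2
  have c3 : ∀ (p : {p // ‖hex p‖ ≤ R - 1}) (k : Fin 9), ‖cen (p, k)‖ ≤ R := by
    intro p k
    obtain ⟨k1, k2, k3, k4, -, -⟩ := bd k
    have k1 : (-16821 : ℝ) ≤ X k := by exact_mod_cast k1
    have k2 : (X k : ℝ) ≤ 16821 := by exact_mod_cast k2
    have k3 : (-711214 : ℝ) ≤ T k := by exact_mod_cast k3
    have k4 : (T k : ℝ) ≤ 711214 := by exact_mod_cast k4
    have a1 := Complex.norm_le_abs_re_add_abs_im ⟨X k / 2100000, √3 * (T k / 2100000)⟩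
    have a2 : |(X k : ℝ) / 2100000| ≤ 0.1 := abs_le.2 ⟨by linarith, by linarith⟩
    have a3 : |√3 * ((T k : ℝ) / 2100000)| ≤ 0.8 := abs_le.2 ⟨by nlinarith, by nlinarith⟩
    have a4 := norm_add_le (hex p) ⟨X k / 2100000, √3 * (T k / 2100000)⟩
    have := p.2
    simp only [cen] at *
    linarith
  refine le_trans ?_ (ENNReal.tsum_comp_le_tsum_of_injective
    (f := fun w : {p // ‖hex p‖ ≤ R - 1} × Fin 9 => (⟨(w.1, w.2), c3 w.1 w.2⟩ : {i // ‖cen i‖ ≤ R}))
    (fun v w h => ?_) _)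
  · rw [ENNReal.tsum_prod', ENNReal.ofReal_mul (by positivity)]
    refine (mul_le_mul_right c2 _).trans ?_
    rw [← ENNReal.tsum_mul_left]
    refine ENNReal.tsum_le_tsum fun p => ?_
    have v : ∀ k : Fin 9, volume (ball (cen (p, k)) (rad (p, k))) =
        ENNReal.ofReal (Real.pi * ((Rr k : ℝ) / 2100000) ^ 2) := fun k => vball _ _ (by
      have : (3780 : ℝ) ≤ Rr k := by exact_mod_cast (bd k).2.2.2.2.1
      simp only [rad]; positivity)
    simp only [v]
    rw [tsum_fintype, ← ENNReal.ofReal_sum_of_nonneg (fun k _ => by positivity),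
      ← ENNReal.ofReal_mul (by positivity)]
    apply ENNReal.ofReal_le_ofReal
    simp only [Fin.sum_univ_succ, Rr, Matrix.cons_val_zero, Matrix.cons_val_succ, Fin.sum_univ_zero]
    rw [div_mul_eq_mul_div, div_le_iff₀ (by positivity)]
    have := mul_pos Real.pi_pos p3
    push_cast
    nlinarith
  · simp only [Subtype.mk.injEq, Prod.mk.injEq] at h
    exact Prod.ext (Subtype.ext h.1) h.2

lemma low2 : ENNReal.ofReal (Real.pi * 0.326674556 / (√3 * 0.50000026) * 0.999999) ≤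
    dens cen rad := by
  refine le_limsup_of_frequently_le (Eventually.frequently ?_)
  filter_upwards [eventually_ge_atTop (10000000 : ℝ)] with R hR
  have : 0 < Real.pi * R ^ 2 := by have := Real.pi_pos; positivity
  rw [ENNReal.le_div_iff_mul_le (Or.inl (by simpa using this)) (Or.inl ENNReal.ofReal_ne_top),
    ← ENNReal.ofReal_mul (by positivity)]
  refine le_trans (ENNReal.ofReal_le_ofReal ?_) (low R (by linarith))
  rw [mul_assoc]
  apply mul_le_mul_of_nonneg_left _ (by positivity)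
  have : 0.999999 * R ^ 2 ≤ (R - 3) ^ 2 := by nlinarith
  nlinarith [Real.pi_pos]

theorem result : ∃ μ : ℝ, √3 - 1 < μ ∧ μ < 1 ∧
    ∃ (ι : Type) (_ : Countable ι) (x : ι → ℂ) (r : ι → ℝ),
      (∀ i j, i ≠ j → max (r i + μ * r j) (r j + μ * r i) ≤ ‖x i - x j‖) ∧
      (∃ a, 0 < a ∧ ∀ i, a ≤ r i) ∧ (∃ b, ∀ i, r i ≤ b) ∧
      densU hex (fun _ => 1 / (1 + μ)) < dens x r := by
  have p3 : 0 < √3 := by positivity
  have q3 : √3 < 1.7321 := by rw [Real.sqrt_lt' (by norm_num)]; norm_num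
  refine ⟨3 / 4, by linarith, by norm_num, (ℤ × ℤ) × Fin 9, inferInstance, cen, rad,
    fun i j h => max_le (sep i j h) (by rw [norm_sub_rev]; exact sep j i h.symm),
    ⟨0.001, by norm_num, fun i => ?_⟩, ⟨1, fun i => ?_⟩, ?_⟩
  · have : (3780 : ℝ) ≤ Rr i.2 := by exact_mod_cast (bd i.2).2.2.2.2.1
    simp only [rad]; linarith
  · have : (Rr i.2 : ℝ) ≤ 1200000 := by exact_mod_cast (bd i.2).2.2.2.2.2
    simp only [rad]; linarith
  rw [show (1 : ℝ) / (1 + 3 / 4) = 4 / 7 by norm_num]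
  refine up.trans_lt (lt_of_lt_of_le ?_ low2)
  rw [ENNReal.ofReal_lt_ofReal_iff (by positivity), div_mul_eq_mul_div,
    div_lt_div_iff₀ (by positivity) (by positivity)]
  have := mul_pos Real.pi_pos p3
  nlinarith

end Pool.Agent.Results.MP_40d282_co.No
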